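import Pool.Agent.W886.RU.Stm2

set_option autoImplicit false

namespace Pool.Agent.W435.RU

open FirstOrder FirstOrder.Language Pool.Agent.W886.RU

instance : ∀ k, Countable (ORel k) := by
  intro k
  refine Function.Injective.countable (f := fun r : ORel k => match r with
    | ORel.le => 0
    | ORel.orc k => (1 : ℕ)) ?_
  intro a b h
  cases a <;> cases b <;> first | rfl | (simp at h)

instance : ∀ k, Countable (OVoc.Relations k) := fun k => inferInstanceAs (Countable (ORel k))

instance : ∀ k, Countable (OVoc.Functions k) := fun _ => inferInstanceAs (Countable Empty)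

instance : ∀ k, Countable (Voc.Functions k) := fun _ => inferInstanceAs (Countable ℕ)

instance : ∀ k, Countable (Voc.Relations k) := fun _ => inferInstanceAs (Countable ℕ)

instance : Countable (Voc.sum OVoc).Symbols := by
  unfold Language.Symbols
  have h1 : ∀ k, Countable ((Voc.sum OVoc).Functions k) := fun k =>
    inferInstanceAs (Countable (Voc.Functions k ⊕ OVoc.Functions k))
  have h2 : ∀ k, Countable ((Voc.sum OVoc).Relations k) := fun k =>
    inferInstanceAs (Countable (Voc.Relations k ⊕ OVoc.Relations k))
  infer_instance

theorem task : Pool.Agent.W886.RU.S_SPC := by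
  unfold S_SPC
  have h : Cardinal.mk (Σ n, (Voc.sum OVoc).BoundedFormula Empty n) ≤ Cardinal.aleph0 := by
    refine le_trans BoundedFormula.card_le ?_
    simp only [Cardinal.mk_eq_zero, Cardinal.lift_zero, zero_add, Cardinal.lift_id]
    refine max_le le_rfl ?_
    have : (Voc.sum OVoc).card ≤ Cardinal.aleph0 := Cardinal.mk_le_aleph0_iff.2 inferInstance
    simpa using this
  have h2 : Countable (Σ n, (Voc.sum OVoc).BoundedFormula Empty n) := Cardinal.mk_le_aleph0_iff.1 h
  refine Function.Injective.countable
    (f := fun φ : (Voc.sum OVoc).Sentence =>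
      (⟨0, φ⟩ : Σ n, (Voc.sum OVoc).BoundedFormula Empty n)) ?_
  intro a b hab
  simpa using hab

end Pool.Agent.W435.RU
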